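import Pool.Agent.FLP.MAIN

/-!
# Rapid mixing of the flip chain on the unimodular triangulations of the `2 × n` rectangle

This is the frozen statement S19315 for `m = 2`, with the same description of the chain: the
triangulations are the maximal sets of pairwise non-crossing lattice segments without lattice
points inside.
-/

set_option autoImplicit false
open Classical

namespace Pool.Agent.Results.MP_532a61_pr.TwoByN

/-- There are constants `C`, `k` such that for every `n ≥ 1` and `ε > 0` the lazy uniform-edge flip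
chain on the unimodular triangulations of the `2 × n` lattice rectangle is within `ε` in total
variation of uniform after any `t ≥ C (2 + n + 1 / ε) ^ k` steps, from any start. -/
theorem result :
  ∃ C k : ℕ, ∀ n : ℕ, 1 ≤ n →
  ∀ toR : ℤ × ℤ → ℝ × ℝ, (∀ p, toR p = ((p.1 : ℝ), (p.2 : ℝ))) →
  ∀ valid : Finset (ℤ × ℤ) → Prop,
    (∀ e, valid e ↔ (e.card = 2 ∧
      (∀ p ∈ e, 0 ≤ p.1 ∧ p.1 ≤ 2 ∧ 0 ≤ p.2 ∧ p.2 ≤ (n : ℤ)) ∧
      ∀ z : ℤ × ℤ, toR z ∈ convexHull ℝ (toR '' (e : Set (ℤ × ℤ))) → z ∈ e)) →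
  ∀ compat : Finset (ℤ × ℤ) → Finset (ℤ × ℤ) → Prop,
    (∀ e f, compat e f ↔ ∀ x ∈ convexHull ℝ (toR '' (e : Set (ℤ × ℤ))) ∩
        convexHull ℝ (toR '' (f : Set (ℤ × ℤ))),
        x ∈ toR '' ((e ∩ f : Finset (ℤ × ℤ)) : Set (ℤ × ℤ))) →
  ∀ S : Finset (Finset (Finset (ℤ × ℤ))),
    (∀ T, T ∈ S ↔ ((∀ e ∈ T, valid e) ∧
      (∀ e ∈ T, ∀ f ∈ T, e ≠ f → compat e f) ∧
      (∀ e, valid e → (∀ f ∈ T, f ≠ e → compat e f) → e ∈ T))) →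
  ∀ K : Finset (Finset (ℤ × ℤ)) → ℕ,
    (∀ T, K T = (T.filter (fun e => ¬ ((∀ p ∈ e, p.1 = 0) ∨ (∀ p ∈ e, p.1 = 2) ∨
        (∀ p ∈ e, p.2 = 0) ∨ (∀ p ∈ e, p.2 = (n : ℤ))))).card) →
  ∀ q : Finset (Finset (ℤ × ℤ)) → Finset (Finset (ℤ × ℤ)) → ℝ,
    (∀ T T', q T T' = if (T \ T').card = 1 ∧ (T' \ T).card = 1
        then 1 / (2 * (K T : ℝ)) else 0) →
  ∀ step : (Finset (Finset (ℤ × ℤ)) → ℝ) → (Finset (Finset (ℤ × ℤ)) → ℝ),
    (∀ μ T', step μ T' = μ T' * (1 - ∑ T'' ∈ S.erase T', q T' T'')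
        + ∑ T ∈ S.erase T', μ T * q T T') →
  ∀ ε : ℝ, 0 < ε → ∀ T0 ∈ S, ∀ t : ℕ,
    (C : ℝ) * ((2 : ℝ) + (n : ℝ) + 1 / ε) ^ k ≤ (t : ℝ) →
    (1 / 2 : ℝ) * ∑ T ∈ S,
      |(step^[t] (fun T => if T = T0 then (1 : ℝ) else 0)) T - 1 / (S.card : ℝ)| ≤ ε :=
  Pool.Agent.FLP.main

end Pool.Agent.Results.MP_532a61_pr.TwoByN
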